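import Pool.Agent.Helper33.QB.LimDefs

/-!
# Project QB, module J4: the maps of the limit semi-condition
-/

set_option autoImplicit false

namespace Pool.Agent.Helper33.QB

open Set

universe v

variable {Ω : Type} {I : Type v} {α : Ordinal.{0}}

section J4

variable {pn : ℕ → Cnd Ω I} {p : Cnd Ω I} {xn : ℕ → Ω} {pt : ℕ → FreeGroup I → Ω}
  {K : ℕ → FreeGroup I → Set Ω} {ν : FreeGroup I → Ω}

theorem limS_h_old (ν : FreeGroup I → Ω) {i : I} (hi : i ∈ p.S) {x : Ω} (hx : x ∈ p.Y) :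
    (limS pn p xn pt K ν).h i x = p.h i x := by
  simp [limS, hi, hx]

theorem limS_h_new (hν : InjOn ν (R0 p xn)) (hν' : ∀ w ∈ R0 p xn, ν w ∉ p.Y) {i : I}
    (hi : i ∈ p.S) {w : FreeGroup I} (hw : w ∈ R0 p xn) :
    (limS pn p xn pt K ν).h i (ν w) = ν (FreeGroup.of i * w) := by
  have hex : ∃ w' ∈ R0 p xn, ν w' = ν w := ⟨w, hw, rfl⟩
  have hc : hex.choose = w := hν hex.choose_spec.1 hw hex.choose_spec.2
  simp only [limS]
  rw [if_pos hi, if_neg (hν' w hw), dif_pos hex, hc]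

theorem j4_mono (h : LimSet α pn p xn pt) : Monotone fun n => (pn n).Y :=
  monotone_nat_of_le_succ fun n => (h.le n).cp.sub

theorem j4_monoS (h : LimSet α pn p xn pt) : Monotone fun n => (pn n).S :=
  monotone_nat_of_le_succ fun n => (h.le n).S

theorem j4_stay (h : LimSet α pn p xn pt) {i : I} {n : ℕ} (hi : i ∈ (pn n).S) {x : Ω}
    (hx : x ∈ p.Y) : p.h i x ∈ (pn n).Y ↔ x ∈ (pn n).Y := by
  constructor
  · intro h1
    by_contra h2
    exact (h.un.le n).out i hi x hx h2 h1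
  · intro h1
    rw [(h.un.le n).h i hi x h1]
    exact ((h.bn n).ce i hi).maps x h1

theorem j4_stayI (h : LimSet α pn p xn pt) {i : I} {n : ℕ} (hi : i ∈ (pn n).S) {x : Ω}
    (hx : x ∈ p.Y) : p.h i x ∈ Itv pn n ↔ x ∈ Itv pn n := by
  have h1 := j4_stay h hi hx
  have h2 := j4_stay h (j4_monoS h (Nat.le_succ n) hi) hx
  simp only [Itv, mem_sdiff, h1, h2]

theorem j4_itv (h : LimSet α pn p xn pt) {x : Ω} (hx : x ∈ p.Y) {n : ℕ} (hn : x ∉ (pn n).Y) :
    ∃ m ≥ n, x ∈ Itv pn m := by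
  classical
  rw [h.un.Y, mem_iUnion] at hx
  have h1 : ¬ x ∈ (pn 0).Y := fun h0 => hn (j4_mono h (Nat.zero_le n) h0)
  obtain ⟨m, hm⟩ : ∃ m, Nat.find hx = m + 1 :=
    Nat.exists_eq_succ_of_ne_zero fun h0 => h1 (by have := Nat.find_spec hx; rwa [h0] at this)
  refine ⟨m, ?_, ?_, ?_⟩
  · by_contra h2
    have h3 : m + 1 ≤ n := by omega
    have := Nat.find_spec hx
    rw [hm] at this
    exact hn (j4_mono h h3 this)
  · have := Nat.find_spec hx
    rwa [hm] at this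
  · exact Nat.find_min hx (by omega)

theorem j4_itvY (h : LimSet α pn p xn pt) (n : ℕ) : Itv pn n ⊆ p.Y := by
  intro x hx
  rw [h.un.Y, mem_iUnion]
  exact ⟨n + 1, hx.1⟩

theorem j4_itv_eq (h : LimSet α pn p xn pt) {m n : ℕ} {x : Ω} (h1 : x ∈ Itv pn m)
    (h2 : x ∈ Itv pn n) : m = n := by
  rcases lt_trichotomy m n with h3 | h3 | h3
  · exact absurd (j4_mono h (show m + 1 ≤ n from h3) h1.1) h2.2
  · exact h3
  · exact absurd (j4_mono h (show n + 1 ≤ m from h3) h2.1) h1.2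

theorem j4_itv_not (h : LimSet α pn p xn pt) {m n : ℕ} (hmn : m ≤ n) {x : Ω}
    (h1 : x ∈ (pn m).Y) : x ∉ Itv pn n := fun h2 => h2.2 (j4_mono h hmn h1)

theorem j4_actsY (h : LimSet α pn p xn pt) {g : FreeGroup I} {x y : Ω}
    (h1 : Acts (Full p) g x y) (hx : x ∈ p.Y) : y ∈ p.Y := by
  induction h1 with
  | one x => exact hx
  | fwd _ h2 ih => obtain ⟨h3, h4, rfl⟩ := h2; exact (h.b.ce _ h3).maps _ h4
  | bwd _ h2 ih => exact h2.2.1

theorem j4_xn (h : LimSet α pn p xn pt) (n : ℕ) : xn n ∈ p.Y := by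
  rw [h.un.Y, mem_iUnion]
  exact ⟨n + 1, (h.x n).1⟩

theorem j4_mul (h : LimSet α pn p xn pt) {w : FreeGroup I} (hw : w ∈ R0 p xn) {i : I}
    (hi : i ∈ p.S) : FreeGroup.of i * w ∈ R0 p xn := by
  obtain ⟨N, hN⟩ := hw
  refine ⟨N, fun n hn => ?_⟩
  obtain ⟨y, hy⟩ := hN n hn
  exact ⟨p.h i y, Acts.fwd hy ⟨hi, j4_actsY h hy (j4_xn h n), rfl⟩⟩

/-- Members of the ring of `limS`. -/
theorem j4_mem (h : LimSet α pn p xn pt) (hν' : ∀ w ∈ R0 p xn, ν w ∉ p.Y)
    (hν : InjOn ν (R0 p xn)) {W : Set (FreeGroup I)} (hW : W.Finite) (hWR : W ⊆ R0 p xn)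
    {K0 : Set Ω} (hK0 : K0 ∈ p.R) {n : ℕ} (hKn : K0 ⊆ (pn n).Y)
    (hK : ∀ m ≥ n, ∀ w ∈ W, K m w ∈ p.R ∧ K m w ⊆ Itv pn m) :
    K0 ∪ ν '' W ∪ ⋃ m ∈ Ici n, ⋃ w ∈ W, K m w ∈ (limS pn p xn pt K ν).R := by
  have hK0Y : K0 ⊆ p.Y := h.b.gr.sub K0 hK0
  have hKU : (⋃ m ∈ Ici n, ⋃ w ∈ W, K m w) ⊆ p.Y := by
    intro x hx
    simp only [mem_iUnion] at hx
    obtain ⟨m, hm, w, hw, hx⟩ := hx
    exact j4_itvY h m ((hK m hm w hw).2 hx)
  refine ⟨?_, ?_, ?_, n, ?_⟩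
  · rintro x ((hx | ⟨w, hw, rfl⟩) | hx)
    · exact Or.inl (hK0Y hx)
    · exact Or.inr ⟨w, hWR hw, rfl⟩
    · exact Or.inl (hKU hx)
  · refine (hW.image ν).subset ?_
    rintro x ⟨(hx | hx) | hx, h2⟩
    · exact absurd (hK0Y hx) h2
    · exact hx
    · exact absurd (hKU hx) h2
  · intro m
    rw [(h.un.le m).cp.ring]
    refine ⟨?_, inter_subset_right⟩
    have h1 : (K0 ∪ ν '' W ∪ ⋃ m ∈ Ici n, ⋃ w ∈ W, K m w) ∩ (pn m).Y =
        (K0 ∩ (pn m).Y) ∪ ⋃ j ∈ Finset.Ico n m, ⋃ w ∈ hW.toFinset, K j w := by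
      ext x
      simp only [mem_inter_iff, mem_union, mem_iUnion, Finset.mem_Ico, Finite.mem_toFinset,
        mem_Ici, exists_prop]
      constructor
      · rintro ⟨(hx | ⟨w, hw, rfl⟩) | ⟨j, hj, w, hw, hx⟩, h2⟩
        · exact Or.inl ⟨hx, h2⟩
        · exact absurd ((h.un.le m).cp.sub h2) (hν' w (hWR hw))
        · refine Or.inr ⟨j, ⟨hj, ?_⟩, w, hw, hx⟩
          by_contra h3
          exact j4_itv_not h (not_lt.1 h3) h2 ((hK j hj w hw).2 hx)
      · rintro (⟨hx, h2⟩ | ⟨j, ⟨hj, hjm⟩, w, hw, hx⟩)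
        · exact ⟨Or.inl (Or.inl hx), h2⟩
        · exact ⟨Or.inr ⟨j, hj, w, hw, hx⟩,
            j4_mono h (show j + 1 ≤ m from hjm) ((hK j hj w hw).2 hx).1⟩
    rw [h1]
    refine h.b.gr.un _ ((h.un.le m).cp.cut K0 hK0) _ ?_
    have h2 : ∀ s : Finset ℕ, (∀ j ∈ s, n ≤ j) → (⋃ j ∈ s, ⋃ w ∈ hW.toFinset, K j w) ∈ p.R := by
      classical
      intro s
      induction s using Finset.induction_on with
      | empty => intro _; simpa using h.b.gr.emp
      | insert j s hj ih =>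
        intro hs
        rw [Finset.set_biUnion_insert]
        refine h.b.gr.un _ ?_ _ (ih fun k hk => hs k (Finset.mem_insert_of_mem hk))
        have h3 : ∀ t : Finset (FreeGroup I), (∀ w ∈ t, w ∈ W) → (⋃ w ∈ t, K j w) ∈ p.R := by
          intro t
          induction t using Finset.induction_on with
          | empty => intro _; simpa using h.b.gr.emp
          | insert w t hw ih' =>
            intro ht
            rw [Finset.set_biUnion_insert]
            exact h.b.gr.un _ (hK j (hs j (Finset.mem_insert_self j s)) w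
              (ht w (Finset.mem_insert_self w t))).1 _
              (ih' fun k hk => ht k (Finset.mem_insert_of_mem hk))
        exact h3 _ fun w hw => hW.mem_toFinset.1 hw
    exact h2 _ fun j hj => (Finset.mem_Ico.1 hj).1
  · intro m hm
    ext x
    simp only [mem_inter_iff, mem_union, mem_iUnion, mem_Ici, exists_prop, mem_ofPred_eq]
    constructor
    · rintro ⟨(hx | ⟨w, hw, rfl⟩) | ⟨j, hj, w, hw, hx⟩, h2⟩
      · exact absurd h2 (j4_itv_not h hm (hKn hx))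
      · exact absurd (j4_itvY h m h2) (hν' w (hWR hw))
      · have h3 := j4_itv_eq h ((hK j hj w hw).2 hx) h2
        subst h3
        exact ⟨w, ⟨hWR hw, Or.inl (Or.inr ⟨w, hw, rfl⟩)⟩, hx⟩
    · rintro ⟨w, ⟨hw, h2⟩, hx⟩
      have hwW : w ∈ W := by
        rcases h2 with (h2 | ⟨w', hw', h3⟩) | ⟨j, hj, w', hw', h3⟩
        · exact absurd (hK0Y h2) (hν' w hw)
        · rwa [← hν (hWR hw') hw h3]
        · exact absurd (j4_itvY h j ((hK j hj w' hw').2 h3)) (hν' w hw)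
      exact ⟨Or.inr ⟨m, hm, w, hwW, hx⟩, (hK m hm w hwW).2 hx⟩

theorem j4_fin (hν : InjOn ν (R0 p xn)) (hν' : ∀ w ∈ R0 p xn, ν w ∉ p.Y) {O : Set Ω}
    (hO : (O \ p.Y).Finite) : {w | w ∈ R0 p xn ∧ ν w ∈ O}.Finite := by
  refine Finite.of_finite_image (hO.subset ?_) (hν.mono fun w hw => hw.1)
  rintro _ ⟨w, hw, rfl⟩
  exact ⟨hw.2, hν' w hw.1⟩

/-- Eventually for all members of a finite set. -/
theorem j4_ev {W : Set (FreeGroup I)} (hW : W.Finite) {P : ℕ → FreeGroup I → Prop}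
    (hP : ∀ w ∈ W, ∃ N : ℕ, ∀ n ≥ N, P n w) : ∃ N : ℕ, ∀ n ≥ N, ∀ w ∈ W, P n w := by
  choose! N hN using hP
  obtain ⟨M, hM⟩ : ∃ M, ∀ w ∈ W, N w ≤ M := by
    obtain ⟨M, hM⟩ := (hW.image N).bddAbove
    exact ⟨M, fun w hw => hM ⟨w, hw, rfl⟩⟩
  exact ⟨M, fun n hn w hw => hN w hw n ((hM w hw).trans hn)⟩

theorem limS_ce (hα : Ind α) (h : LimSet α pn p xn pt) (hK : EK pn p xn pt K)
    (hν : InjOn ν (R0 p xn)) (hν' : ∀ w ∈ R0 p xn, ν w ∉ p.Y) {i : I} (hi : i ∈ p.S) :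
    CE (limS pn p xn pt K ν).Y (limS pn p xn pt K ν).R ((limS pn p xn pt K ν).h i) := by
  have hce := h.b.ce i hi
  obtain ⟨N0, hN0⟩ : ∃ N, i ∈ (pn N).S := by
    have := hi
    rw [h.un.S, mem_iUnion] at this
    exact this
  have hN0' : ∀ n ≥ N0, i ∈ (pn n).S := fun n hn => j4_monoS h hn hN0
  have ho : ∀ x ∈ p.Y, (limS pn p xn pt K ν).h i x = p.h i x := fun x hx => limS_h_old ν hi hx
  have hn : ∀ w ∈ R0 p xn, (limS pn p xn pt K ν).h i (ν w) = ν (FreeGroup.of i * w) :=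
    fun w hw => limS_h_new hν hν' hi hw
  have hmul : ∀ w ∈ R0 p xn, FreeGroup.of i * w ∈ R0 p xn := fun w hw => j4_mul h hw hi
  set H : Ω → Ω := (limS pn p xn pt K ν).h i with hH
  have hY : (limS pn p xn pt K ν).Y = p.Y ∪ ν '' R0 p xn := rfl
  rw [hY]
  have hpre : ∀ y ∈ p.Y, ∀ x ∈ p.Y ∪ ν '' R0 p xn, H x = y → x ∈ p.Y ∧ p.h i x = y := by
    rintro y hy x (hx | ⟨w, hw, rfl⟩) hxy
    · exact ⟨hx, by rw [← hxy, ho x hx]⟩
    · rw [hn w hw] at hxy
      exact absurd (hxy ▸ hy) (hν' _ (hmul w hw))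
  have hpreN : ∀ w ∈ R0 p xn, ∀ x ∈ p.Y ∪ ν '' R0 p xn, H x = ν w →
      ∃ w' ∈ R0 p xn, x = ν w' ∧ w = FreeGroup.of i * w' := by
    rintro w hw x (hx | ⟨w', hw', rfl⟩) hxy
    · rw [ho x hx] at hxy
      exact absurd (hxy ▸ hce.maps x hx) (hν' w hw)
    · rw [hn w' hw'] at hxy
      exact ⟨w', hw', rfl, (hν (hmul w' hw') hw hxy).symm⟩
  constructor
  · rintro x (hx | ⟨w, hw, rfl⟩)
    · rw [ho x hx]
      exact Or.inl (hce.maps x hx)
    · rw [hn w hw]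
      exact Or.inr ⟨_, hmul w hw, rfl⟩
  · rintro x (hx | ⟨w, hw, rfl⟩) y hy hxy
    · rw [ho x hx] at hxy
      obtain ⟨h1, h2⟩ := hpre _ (hce.maps x hx) y hy hxy.symm
      exact hce.inj hx h1 h2.symm
    · rw [hn w hw] at hxy
      obtain ⟨w', hw', rfl, h2⟩ := hpreN _ (hmul w hw) y hy hxy.symm
      rw [mul_left_cancel h2]
  · rintro O ⟨hO1, hO2, hO3, N1, hN1⟩
    set W : Set (FreeGroup I) := {w | w ∈ R0 p xn ∧ ν w ∈ O} with hWdef
    have hW : W.Finite := j4_fin hν hν' hO2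
    obtain ⟨N2, hN2⟩ := j4_ev hW (P := fun n w => K n (FreeGroup.of i * w) ∈ p.R ∧
      K n (FreeGroup.of i * w) ⊆ Itv pn n ∧
      K n (FreeGroup.of i * w) ∩ p.h i '' p.Y = p.h i '' K n w) (fun w hw => by
        obtain ⟨A, hA⟩ := hK.e1 _ (hmul w hw.1)
        obtain ⟨B, hB⟩ := hK.e3 w hw.1 i hi
        exact ⟨max A B, fun n hn => ⟨(hA n (le_of_max_le_left hn)).1,
          (hA n (le_of_max_le_left hn)).2.1, hB n (le_of_max_le_right hn)⟩⟩)
    set N := max N0 (max N1 N2) with hN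
    have h0N : N0 ≤ N := le_max_left _ _
    have h1N : N1 ≤ N := (le_max_left _ _).trans (le_max_right _ _)
    have h2N : N2 ≤ N := (le_max_right _ _).trans (le_max_right _ _)
    have hiN := hN0' N h0N
    obtain ⟨K0, hK0, hK0'⟩ := ((h.bn N).ce i hiN).img _ (hO3 N)
    have hK0p := ((h.un.le N).cp.ring K0).1 hK0
    set W' : Set (FreeGroup I) := (fun w => FreeGroup.of i * w) '' W with hW'
    have hW'f : W'.Finite := hW.image _
    have hW'R : W' ⊆ R0 p xn := by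
      rintro _ ⟨w, hw, rfl⟩
      exact hmul w hw.1
    have hKW' : ∀ m ≥ N, ∀ w ∈ W', K m w ∈ p.R ∧ K m w ⊆ Itv pn m := by
      rintro m hm _ ⟨w, hw, rfl⟩
      have := hN2 m (h2N.trans hm) w hw
      exact ⟨this.1, this.2.1⟩
    refine ⟨_, j4_mem h hν' hν hW'f hW'R hK0p.1 hK0p.2 hKW', ?_⟩
    ext y
    constructor
    · rintro ⟨x, hx, rfl⟩
      refine ⟨?_, x, hO1 hx, rfl⟩
      rcases hO1 hx with hx' | ⟨w, hw, rfl⟩
      · rw [ho x hx']
        by_cases hxN : x ∈ (pn N).Y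
        · refine Or.inl (Or.inl ?_)
          have h1 : (pn N).h i x ∈ (pn N).h i '' (O ∩ (pn N).Y) := ⟨x, ⟨hx, hxN⟩, rfl⟩
          rw [hK0'] at h1
          rw [(h.un.le N).h i hiN x hxN]
          exact h1.1
        · obtain ⟨m, hm, hxm⟩ := j4_itv h hx' hxN
          have h1 : x ∈ O ∩ Itv pn m := ⟨hx, hxm⟩
          rw [hN1 m (h1N.trans hm)] at h1
          simp only [mem_iUnion] at h1
          obtain ⟨w, hw, hxw⟩ := h1
          refine Or.inr ?_
          simp only [mem_iUnion]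
          refine ⟨m, hm, FreeGroup.of i * w, ⟨w, hw, rfl⟩, ?_⟩
          have h2 : p.h i x ∈ p.h i '' K m w := ⟨x, hxw, rfl⟩
          rw [← (hN2 m (h2N.trans hm) w hw).2.2] at h2
          exact h2.1
      · rw [hn w hw]
        exact Or.inl (Or.inr ⟨_, ⟨w, ⟨hw, hx⟩, rfl⟩, rfl⟩)
    · rintro ⟨(hy | ⟨_, ⟨w, hw, rfl⟩, rfl⟩) | hy, x, hx, hxy⟩
      · obtain ⟨h1, h2⟩ := hpre y (h.b.gr.sub _ hK0p.1 hy) x hx hxy
        have h3 : x ∈ (pn N).Y := by
          rw [← j4_stay h hiN h1, h2]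
          exact hK0p.2 hy
        have h4 : y ∈ K0 ∩ (pn N).h i '' (pn N).Y :=
          ⟨hy, x, h3, by rw [← (h.un.le N).h i hiN x h3, h2]⟩
        rw [← hK0'] at h4
        obtain ⟨x', hx', h5⟩ := h4
        refine ⟨x', hx'.1, ?_⟩
        rw [ho x' ((h.un.le N).cp.sub hx'.2), (h.un.le N).h i hiN x' hx'.2, h5]
      · exact ⟨ν w, hw.2, hn w hw.1⟩
      · simp only [mem_iUnion] at hy
        obtain ⟨m, hm, _, ⟨w, hw, rfl⟩, hy⟩ := hy
        have h0 := hN2 m (h2N.trans hm) w hw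
        obtain ⟨h1, h2⟩ := hpre y (j4_itvY h m (h0.2.1 hy)) x hx hxy
        have h3 : y ∈ K m (FreeGroup.of i * w) ∩ p.h i '' p.Y := ⟨hy, x, h1, h2⟩
        rw [h0.2.2] at h3
        obtain ⟨x', hx', h4⟩ := h3
        have h5 : x' ∈ O ∩ Itv pn m := by
          rw [hN1 m (h1N.trans hm)]
          simp only [mem_iUnion]
          exact ⟨w, hw, hx'⟩
        exact ⟨x', h5.1, by rw [ho x' (j4_itvY h m h5.2), h4]⟩
  · rintro O ⟨hO1, hO2, hO3, N1, hN1⟩
    set W : Set (FreeGroup I) := {w | w ∈ R0 p xn ∧ ν w ∈ O} with hWdef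
    have hW : W.Finite := j4_fin hν hν' hO2
    have hWi : {w | w ∈ R0 p xn ∧ FreeGroup.of i * w ∈ W}.Finite := by
      refine Finite.of_finite_image (f := fun w => FreeGroup.of i * w) (hW.subset ?_)
        fun a _ b _ hab => mul_left_cancel hab
      rintro _ ⟨w, hw, rfl⟩
      exact hw.2
    have hold : ∀ n, ({x | x ∈ p.Y ∪ ν '' R0 p xn ∧ H x ∈ O} ∩ (pn n).Y) =
        {x | x ∈ (pn n).Y ∧ p.h i x ∈ O} := by
      intro n
      ext x
      constructor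
      · rintro ⟨⟨_, h1⟩, h2⟩
        refine ⟨h2, ?_⟩
        rwa [ho x ((h.un.le n).cp.sub h2)] at h1
      · rintro ⟨h1, h2⟩
        have h3 := (h.un.le n).cp.sub h1
        exact ⟨⟨Or.inl h3, by rwa [ho x h3]⟩, h1⟩
    have hoR : ∀ n ≥ N0, {x | x ∈ (pn n).Y ∧ p.h i x ∈ O} ∈ p.R := by
      intro n hn'
      have h1 := ((h.bn n).ce i (hN0' n hn')).pre _ (hO3 n)
      have h2 := (((h.un.le n).cp.ring _).1 h1).1
      convert h2 using 1
      ext x
      constructor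
      · rintro ⟨h3, h4⟩
        have h5 := (h.un.le n).h i (hN0' n hn') x h3
        refine ⟨h3, ?_, ((h.bn n).ce i (hN0' n hn')).maps x h3⟩
        rwa [← h5]
      · rintro ⟨h3, h4, _⟩
        refine ⟨h3, ?_⟩
        rwa [(h.un.le n).h i (hN0' n hn') x h3]
    obtain ⟨N2, hN2⟩ := j4_ev hW (P := fun n w => K n w ⊆ Itv pn n ∧
      ((FreeGroup.of i)⁻¹ * w ∉ R0 p xn → K n w ∩ p.h i '' p.Y = ∅)) (fun w hw => by
        obtain ⟨A, hA⟩ := hK.e1 _ hw.1
        by_cases h1 : (FreeGroup.of i)⁻¹ * w ∈ R0 p xn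
        · exact ⟨A, fun n hn => ⟨(hA n hn).2.1, fun h2 => absurd h1 h2⟩⟩
        · obtain ⟨B, hB⟩ := hK.e4 w hw.1 i hi h1
          exact ⟨max A B, fun n hn => ⟨(hA n (le_of_max_le_left hn)).2.1,
            fun _ => hB n (le_of_max_le_right hn)⟩⟩)
    obtain ⟨N3, hN3⟩ := j4_ev hWi (P := fun n w => K n w ⊆ Itv pn n ∧
      K n (FreeGroup.of i * w) ∩ p.h i '' p.Y = p.h i '' K n w) (fun w hw => by
        obtain ⟨A, hA⟩ := hK.e1 _ hw.1
        obtain ⟨B, hB⟩ := hK.e3 w hw.1 i hi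
        exact ⟨max A B, fun n hn => ⟨(hA n (le_of_max_le_left hn)).2.1,
          hB n (le_of_max_le_right hn)⟩⟩)
    refine ⟨fun x hx => hx.1, ?_, ?_, max (max N0 N1) (max N2 N3), ?_⟩
    · refine (hWi.image ν).subset ?_
      rintro x ⟨⟨hx | ⟨w, hw, rfl⟩, h1⟩, h2⟩
      · exact absurd hx h2
      · rw [hn w hw] at h1
        exact ⟨w, ⟨hw, hmul w hw, h1⟩, rfl⟩
    · intro m
      rw [(h.un.le m).cp.ring]
      refine ⟨?_, inter_subset_right⟩
      have h1 := (h.un.le m).cp.cut _ (hoR (max m N0) (le_max_right _ _))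
      rw [hold]
      convert h1 using 1
      ext x
      constructor
      · rintro ⟨h3, h4⟩
        exact ⟨⟨j4_mono h (le_max_left m N0) h3, h4⟩, h3⟩
      · rintro ⟨⟨_, h4⟩, h3⟩
        exact ⟨h3, h4⟩
    · intro m hm
      have hm0 : N0 ≤ m := ((le_max_left _ _).trans (le_max_left _ _)).trans hm
      have hm1 : N1 ≤ m := ((le_max_right _ _).trans (le_max_left _ _)).trans hm
      have hm2 : N2 ≤ m := ((le_max_left _ _).trans (le_max_right _ _)).trans hm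
      have hm3 : N3 ≤ m := ((le_max_right _ _).trans (le_max_right _ _)).trans hm
      ext x
      simp only [mem_inter_iff, mem_iUnion, exists_prop, mem_ofPred_eq]
      constructor
      · rintro ⟨⟨_, h1⟩, h2⟩
        have hxY := j4_itvY h m h2
        rw [ho x hxY] at h1
        have h3 : p.h i x ∈ O ∩ Itv pn m := ⟨h1, (j4_stayI h (hN0' m hm0) hxY).2 h2⟩
        rw [hN1 m hm1] at h3
        simp only [mem_iUnion] at h3
        obtain ⟨w, hw, h4⟩ := h3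
        by_cases h5 : (FreeGroup.of i)⁻¹ * w ∈ R0 p xn
        · refine ⟨(FreeGroup.of i)⁻¹ * w, ⟨h5, Or.inr ⟨_, h5, rfl⟩, ?_⟩, ?_⟩
          · rw [hn _ h5, mul_inv_cancel_left]
            exact hw.2
          · have h6 := hN3 m hm3 ((FreeGroup.of i)⁻¹ * w)
              ⟨h5, by rw [mul_inv_cancel_left]; exact hw⟩
            rw [mul_inv_cancel_left] at h6
            have h7 : p.h i x ∈ K m w ∩ p.h i '' p.Y := ⟨h4, x, hxY, rfl⟩
            rw [h6.2] at h7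
            obtain ⟨x', hx', h8⟩ := h7
            rwa [hce.inj (j4_itvY h m (h6.1 hx')) hxY h8] at hx'
        · have h6 := (hN2 m hm2 w hw).2 h5
          have h7 : p.h i x ∈ K m w ∩ p.h i '' p.Y := ⟨h4, x, hxY, rfl⟩
          rw [h6] at h7
          exact absurd h7 (notMem_empty _)
      · rintro ⟨w, ⟨hw, _, h1⟩, hx⟩
        rw [hn w hw] at h1
        have h2 := hN3 m hm3 w ⟨hw, hmul w hw, h1⟩
        have hxY := j4_itvY h m (h2.1 hx)
        have h3 : p.h i x ∈ K m (FreeGroup.of i * w) := by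
          have : p.h i x ∈ p.h i '' K m w := ⟨x, hx, rfl⟩
          rw [← h2.2] at this
          exact this.1
        have h4 : p.h i x ∈ O ∩ Itv pn m := by
          rw [hN1 m hm1]
          simp only [mem_iUnion]
          exact ⟨_, ⟨hmul w hw, h1⟩, h3⟩
        refine ⟨⟨Or.inl hxY, ?_⟩, h2.1 hx⟩
        rw [ho x hxY]
        exact h4.1
  · refine ⟨?_, ?_⟩
    · rintro _ ⟨x, hx | ⟨w, hw, rfl⟩, rfl⟩
      · rw [ho x hx]
        exact Or.inl (hce.maps x hx)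
      · rw [hn w hw]
        exact Or.inr ⟨_, hmul w hw, rfl⟩
    · rintro x (hx | ⟨w, hw, rfl⟩) hxn
      · obtain ⟨K0, hK0, hxK, hK1⟩ := hce.closed.2 x hx (by
          rintro ⟨x', hx', h1⟩
          exact hxn ⟨x', Or.inl hx', by rw [ho x' hx', h1]⟩)
        obtain ⟨n, hn'⟩ := h.un.R K0 hK0
        have h1 := j4_mem (K := K) h hν' hν (W := ∅) finite_empty (empty_subset _) hK0
          (((h.un.le n).cp.ring K0).1 hn').2 (fun m _ w hw => absurd hw (notMem_empty _))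
        refine ⟨K0, ?_, hxK, ?_⟩
        · simpa using h1
        · rw [eq_empty_iff_forall_notMem] at hK1 ⊢
          rintro y ⟨hy, x', hx', h2⟩
          obtain ⟨h3, h4⟩ := hpre y (h.b.gr.sub _ hK0 hy) x' hx' h2
          exact hK1 y ⟨hy, x', h3, h4⟩
      · have h1 : (FreeGroup.of i)⁻¹ * w ∉ R0 p xn := by
          intro h1
          refine hxn ⟨ν ((FreeGroup.of i)⁻¹ * w), Or.inr ⟨_, h1, rfl⟩, ?_⟩
          rw [hn _ h1, mul_inv_cancel_left]
        obtain ⟨A, hA⟩ := hK.e1 w hw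
        obtain ⟨B, hB⟩ := hK.e4 w hw i hi h1
        have h2 := j4_mem (K := K) h hν' hν (W := {w}) (finite_singleton w)
          (singleton_subset_iff.2 hw) h.b.gr.emp (n := max A B) (empty_subset _)
          (by
            rintro m hm w' rfl
            exact ⟨(hA m (le_of_max_le_left hm)).1, (hA m (le_of_max_le_left hm)).2.1⟩)
        refine ⟨_, h2, Or.inl (Or.inr ⟨w, rfl, rfl⟩), ?_⟩
        rw [eq_empty_iff_forall_notMem]
        rintro y ⟨(hy | ⟨w', rfl, rfl⟩) | hy, x', hx', h3⟩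
        · exact hy
        · exact hxn ⟨x', hx', h3⟩
        · simp only [mem_iUnion] at hy
          obtain ⟨m, hm, w', rfl, hy⟩ := hy
          have h4 := (hA m (le_of_max_le_left hm)).2.1 hy
          obtain ⟨h5, h6⟩ := hpre y (j4_itvY h m h4) x' hx' h3
          have h7 := hB m (le_of_max_le_right hm)
          rw [eq_empty_iff_forall_notMem] at h7
          exact h7 y ⟨hy, x', h5, h6⟩

end J4

end Pool.Agent.Helper33.QB
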